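import Mathlib
import Pool.Agent.R153.Hook2Defs
import Pool.Agent.W2helper85.HookT2

set_option autoImplicit false

/-!
# MP_6996b5_co, Q1 (proof): the number of 2-hooks in `t`-regular partitions is monotone in `t`

For every `t ≥ 3` and every `n`, the number of cells of hook length two in all `t`-regular
partitions of `n` is at most the number of those in all `(t + 1)`-regular partitions of `n`.

Definitions (`Pool/Agent/R153/Hook2Defs.lean`): `young p` is the Young diagram of the partition `p`,
`hookLength μ c` is the hook length of the cell `c` of the diagram `μ`, `hooks2 p` is the number of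
the cells of hook length two of `young p`.

Proof. Let `r t n` be the number of `t`-regular partitions of `n` (zero for `n < 0`). Counting the
cells by the parts involved gives
`b t n = 2 ∑_{i ≥ 1} r t (n - 2 i) - ∑_{j odd} r t (n - j t) + ∑_{j even, j > 0} Δ² r t (n - j t + 1)`
with `Δ² g m = g m - 2 g (m - 1) + g (m - 2)`.  With `a = r (t + 1) - r t`, which counts the partitions
whose greatest multiplicity is `t` (Glaisher), the difference `b (t + 1) n - b t n` is the same
expression for `a` and `t + 1`, plus the change of the two last sums for `r t` when `t` is replaced by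
`t + 1`.  The second part is nonnegative term by term, and the first is nonnegative because
`a (m - 1) ≤ 2 a m` unless `m = t + 1`.
-/

namespace Pool.Agent.Results.MP_6996b5_co.TwoHookMonotone

open Pool.Agent.R153.Hook2

/-- For all `t ≥ 3` and `n ≥ 0`: `b_{t,2}(n) ≤ b_{t+1,2}(n)`. -/
theorem result : ∀ t n : ℕ, 3 ≤ t →
    ∑ p ∈ Nat.Partition.restricted n (fun x => ¬ t ∣ x), hooks2 p ≤
      ∑ p ∈ Nat.Partition.restricted n (fun x => ¬ (t + 1) ∣ x), hooks2 p :=
  fun t n ht => Pool.Agent.W2helper85.HookT.b_mono t n ht

end Pool.Agent.Results.MP_6996b5_co.TwoHookMonotone
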